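import Pool.Agent.N520.RO.Inst

/-!
Project RO (helper520), parts INA and INC (helper891): block unitary elements and compactness.
-/

set_option autoImplicit false

open Set Filter Topology Matrix

namespace Pool.Agent.N891.RO

open Pool.Agent.N520.RO

section
variable {𝕜 : Type} [RCLike 𝕜] {n : ℕ}

theorem lor_mul_lor : lor 𝕜 n * lor 𝕜 n = 1 := by
  unfold lor
  rw [Matrix.diagonal_mul_diagonal, ← Matrix.diagonal_one]
  congr 1
  funext i
  split_ifs
  · ring
  · ring

theorem left_inv (A : Matrix (Fin (n + 2)) (Fin (n + 2)) 𝕜) (hA : Aᴴ * lor 𝕜 n * A = lor 𝕜 n) :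
    lor 𝕜 n * Aᴴ * lor 𝕜 n * A = 1 := by
  calc lor 𝕜 n * Aᴴ * lor 𝕜 n * A = lor 𝕜 n * (Aᴴ * lor 𝕜 n * A) := by
        simp only [Matrix.mul_assoc]
    _ = 1 := by rw [hA, lor_mul_lor]

/-- the element of the group given by a matrix -/
noncomputable def mk (A : Matrix (Fin (n + 2)) (Fin (n + 2)) 𝕜) (hA : Aᴴ * lor 𝕜 n * A = lor 𝕜 n) :
    LorGroup 𝕜 n :=
  ⟨⟨A, lor 𝕜 n * Aᴴ * lor 𝕜 n, mul_eq_one_comm.1 (left_inv A hA), left_inv A hA⟩, hA⟩

theorem mat_mk (A : Matrix (Fin (n + 2)) (Fin (n + 2)) 𝕜) (hA : Aᴴ * lor 𝕜 n * A = lor 𝕜 n) :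
    mat (mk A hA) = A := rfl

/-- a unitary matrix with given first column -/
theorem exists_unitary (z : Fin (n + 1) → 𝕜) (hz : ∑ i, ‖z i‖ ^ 2 = 1) :
    ∃ U : Matrix (Fin (n + 1)) (Fin (n + 1)) 𝕜, (∀ i j, ∑ k, star (U k i) * U k j = if i = j then 1 else 0) ∧
      (∀ i j, ‖U i j‖ ≤ 1) ∧ ∀ i, U i 0 = z i := by
  obtain ⟨v, hv⟩ : ∃ v : EuclideanSpace 𝕜 (Fin (n + 1)), v = WithLp.toLp 2 z := ⟨_, rfl⟩
  have hv1 : ‖v‖ = 1 := by
    rw [EuclideanSpace.norm_eq, hv]
    show Real.sqrt (∑ i, ‖z i‖ ^ 2) = 1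
    rw [hz, Real.sqrt_one]
  have ho : Orthonormal 𝕜 (Set.restrict ({0} : Set (Fin (n + 1))) fun _ : Fin (n + 1) => v) := by
    constructor
    · intro i
      exact hv1
    · intro i j hij
      exact absurd (Subsingleton.elim i j) hij
  obtain ⟨b, hb⟩ := ho.exists_orthonormalBasis_extension_of_card_eq (by
    rw [finrank_euclideanSpace])
  refine ⟨fun i j => b j i, ?_, ?_, ?_⟩
  · intro i j
    have h1 := orthonormal_iff_ite.1 b.orthonormal i j
    rw [PiLp.inner_apply] at h1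
    rw [← h1]
    refine Finset.sum_congr rfl fun k _ => ?_
    rw [RCLike.inner_apply, mul_comm]
    rfl
  · intro i j
    have h1 := PiLp.norm_apply_le (b j) i
    rwa [b.norm_eq_one] at h1
  · intro i
    have h1 := hb 0 rfl
    show b 0 i = z i
    rw [h1, hv]

/-- the block matrix -/
def blk (α : 𝕜) (U : Matrix (Fin (n + 1)) (Fin (n + 1)) 𝕜) : Matrix (Fin (n + 2)) (Fin (n + 2)) 𝕜 :=
  fun i j => Fin.cases (Fin.cases α (fun _ => 0) j) (fun i' => Fin.cases 0 (fun j' => U i' j') j) i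

theorem blk00 (α : 𝕜) (U : Matrix (Fin (n + 1)) (Fin (n + 1)) 𝕜) : blk α U 0 0 = α := rfl

theorem blk01 (α : 𝕜) (U : Matrix (Fin (n + 1)) (Fin (n + 1)) 𝕜) (j : Fin (n + 1)) :
    blk α U 0 j.succ = 0 := rfl

theorem blk10 (α : 𝕜) (U : Matrix (Fin (n + 1)) (Fin (n + 1)) 𝕜) (i : Fin (n + 1)) :
    blk α U i.succ 0 = 0 := rfl

theorem blk11 (α : 𝕜) (U : Matrix (Fin (n + 1)) (Fin (n + 1)) 𝕜) (i j : Fin (n + 1)) :
    blk α U i.succ j.succ = U i j := rfl

theorem blk_mem (α : 𝕜) (hα : ‖α‖ = 1) (U : Matrix (Fin (n + 1)) (Fin (n + 1)) 𝕜)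
    (hU : ∀ i j, ∑ k, star (U k i) * U k j = if i = j then 1 else 0) :
    (blk α U)ᴴ * lor 𝕜 n * blk α U = lor 𝕜 n := by
  have hαα : star α * α = 1 := by
    have h1 := RCLike.conj_mul α
    rw [hα] at h1
    show (starRingEnd 𝕜) α * α = 1
    rw [h1]
    simp
  ext i j
  unfold lor
  rw [Matrix.mul_apply, Fin.sum_univ_succ]
  simp only [Matrix.mul_diagonal, Matrix.conjTranspose_apply]
  refine Fin.cases ?_ (fun i' => ?_) i
  · refine Fin.cases ?_ (fun j' => ?_) j
    · simp only [blk00, blk10]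
      rw [Matrix.diagonal_apply_eq]
      simp only [if_true, star_zero, zero_mul, Finset.sum_const_zero, mul_neg, mul_one, neg_mul, hαα, add_zero]
    · simp only [blk00, blk01, blk10, blk11]
      rw [Matrix.diagonal_apply_ne _ (Fin.succ_ne_zero _).symm]
      simp
  · refine Fin.cases ?_ (fun j' => ?_) j
    · simp only [blk00, blk01, blk10, blk11]
      rw [Matrix.diagonal_apply_ne _ (Fin.succ_ne_zero _)]
      simp
    · simp only [blk01, blk11]
      rw [Matrix.diagonal_apply]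
      simp only [Fin.succ_ne_zero, if_false, mul_one, mul_zero, zero_add, Fin.succ_inj, hU]

end

theorem t_ina : S_INA := by
  intro 𝕜 _ n α z hα hz
  obtain ⟨U, h1, h2, h3⟩ := exists_unitary z hz
  refine ⟨mk (blk α U) (blk_mem α hα U h1), ?_, ?_, ?_⟩
  · rw [mat_mk]
    intro i j
    refine Fin.cases ?_ (fun i' => ?_) i
    · refine Fin.cases ?_ (fun j' => ?_) j
      · rw [blk00, hα]
      · rw [blk01, norm_zero]
        exact zero_le_one
    · refine Fin.cases ?_ (fun j' => ?_) j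
      · rw [blk10, norm_zero]
        exact zero_le_one
      · rw [blk11]
        exact h2 _ _
  · rw [mat_mk, Matrix.mulVec_single_one]
    funext i
    rw [Matrix.col_apply]
    refine Fin.cases ?_ (fun i' => ?_) i
    · rw [blk00, Pi.single_eq_same]
    · rw [blk10, Pi.single_eq_of_ne (Fin.succ_ne_zero _)]
  · rw [mat_mk, Matrix.mulVec_single_one]
    funext i
    rw [Matrix.col_apply]
    have e : (1 : Fin (n + 2)) = Fin.succ (0 : Fin (n + 1)) := rfl
    rw [e]
    refine Fin.cases ?_ (fun i' => ?_) i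
    · rw [blk01, Fin.cons_zero]
    · rw [blk11, Fin.cons_succ, h3]

theorem t_inc : S_INC := by
  intro 𝕜 _ n
  obtain ⟨M, hMd⟩ : ∃ M : Set (Matrix (Fin (n + 2)) (Fin (n + 2)) 𝕜),
    M = {A | Aᴴ * lor 𝕜 n * A = lor 𝕜 n ∧ ∀ i j, ‖A i j‖ ≤ 2} := ⟨_, rfl⟩
  have hM : IsCompact M := by
    have h1 : IsCompact (Set.pi Set.univ fun _ : Fin (n + 2) =>
        Set.pi Set.univ fun _ : Fin (n + 2) => Metric.closedBall (0 : 𝕜) 2) :=
      isCompact_univ_pi fun _ => isCompact_univ_pi fun _ => isCompact_closedBall _ _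
    refine IsCompact.of_isClosed_subset (s := (Set.pi Set.univ fun _ : Fin (n + 2) =>
        Set.pi Set.univ fun _ : Fin (n + 2) => Metric.closedBall (0 : 𝕜) 2)) h1 ?_ ?_
    · rw [hMd, Set.setOf_and]
      refine IsClosed.inter ?_ ?_
      · refine isClosed_eq ?_ continuous_const
        exact ((continuous_id.matrix_conjTranspose).matrix_mul continuous_const).matrix_mul continuous_id
      · simp only [Set.setOf_forall]
        refine isClosed_iInter fun i => isClosed_iInter fun j => ?_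
        refine isClosed_le ?_ continuous_const
        exact (continuous_id.matrix_elem i j).norm
    · intro A hA
      rw [hMd] at hA
      intro i _ j _
      rw [mem_closedBall_zero_iff]
      exact hA.2 i j
  haveI : CompactSpace M := isCompact_iff_compactSpace.1 hM
  have hMm : ∀ A ∈ M, Aᴴ * lor 𝕜 n * A = lor 𝕜 n ∧ ∀ i j, ‖A i j‖ ≤ 2 := by
    intro A hA
    rw [hMd] at hA
    exact hA
  have hM' : ∀ A : M, (A : Matrix (Fin (n + 2)) (Fin (n + 2)) 𝕜)ᴴ * lor 𝕜 n * A = lor 𝕜 n :=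
    fun A => (hMm A.1 A.2).1
  have hu : Continuous fun A : M => mk (A : Matrix (Fin (n + 2)) (Fin (n + 2)) 𝕜) (hM' A) := by
    refine Continuous.subtype_mk ?_ _
    rw [Units.continuous_iff]
    refine ⟨continuous_subtype_val, ?_⟩
    show Continuous fun A : M => lor 𝕜 n * (A : Matrix (Fin (n + 2)) (Fin (n + 2)) 𝕜)ᴴ * lor 𝕜 n
    exact (continuous_const.matrix_mul continuous_subtype_val.matrix_conjTranspose).matrix_mul
      continuous_const
  have e : KL 𝕜 n = Set.range fun A : M => mk (A : Matrix (Fin (n + 2)) (Fin (n + 2)) 𝕜) (hM' A) := by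
    ext g
    constructor
    · intro hg
      refine ⟨⟨mat g, ?_⟩, ?_⟩
      · rw [hMd]
        exact ⟨g.2, hg⟩
      · refine Subtype.ext (Units.ext rfl)
    · rintro ⟨A, rfl⟩
      exact (hMm A.1 A.2).2
  rw [e]
  exact isCompact_range hu

end Pool.Agent.N891.RO
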